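import Mathlib
import Pool.Agent.Helper26.FU.Asm

set_option autoImplicit false

namespace Pool.Agent.Results.MP_295d38_ag.FullProportion

open MvPolynomial

/-- The families `F = (F j)`, `j < s`, of `(N + 1)`-tuples of forms of degree `d` in `N + 1`
variables with integral coefficients, such that `|F - B * A| ≤ ε * B` and `F ≡ F₀` modulo `m`,
coefficient by coefficient. -/
def box (N d m s : ℕ) (A : Fin s → Fin (N + 1) → MvPolynomial (Fin (N + 1)) ℝ) (ε : ℝ)
    (F₀ : Fin s → Fin (N + 1) → MvPolynomial (Fin (N + 1)) ℤ) (B : ℕ) :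
    Set (Fin s → Fin (N + 1) → MvPolynomial (Fin (N + 1)) ℤ) :=
  {F | ∀ j i, (F j i).IsHomogeneous d ∧ ∀ t,
    |((coeff t (F j i) : ℤ) : ℝ) - B * coeff t (A j i)| ≤ ε * B ∧
    (m : ℤ) ∣ coeff t (F j i) - coeff t (F₀ j i)}

/-- The tuple `∑ⱼ eⱼ Fⱼ` of forms with coefficients in `ℂ`. -/
noncomputable def comb {N s : ℕ} (e : Fin s → ℂ)
    (F : Fin s → Fin (N + 1) → MvPolynomial (Fin (N + 1)) ℤ) :
    Fin (N + 1) → MvPolynomial (Fin (N + 1)) ℂ :=
  fun i => ∑ j, C (e j) * map (Int.castRingHom ℂ) (F j i)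

/-- The forms `Φᵢ` have no common zero in `ℂ ^ (N + 1)` except `0`, i.e. they define an endomorphism
of `ℙᴺ`. -/
def IsEndo {N : ℕ} (Φ : Fin (N + 1) → MvPolynomial (Fin (N + 1)) ℂ) : Prop :=
  ∀ z : Fin (N + 1) → ℂ, (∀ i, eval z (Φ i) = 0) → z = 0

/-- The endomorphism of `ℙᴺ` given by the forms `Φᵢ`, in homogeneous coordinates. -/
noncomputable def endo {N : ℕ} (Φ : Fin (N + 1) → MvPolynomial (Fin (N + 1)) ℂ)
    (x : Fin (N + 1) → ℂ) : Fin (N + 1) → ℂ :=
  fun i => eval x (Φ i)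

/-- The variables of `G` are the homogeneous coordinates of the points of `(ℙᴺ)ᵏ`, and all monomials
of `G` have the same degree in the `b`-th group of variables, for each `b`. -/
def IsMultihomogeneous {k N : ℕ} (G : MvPolynomial (Fin k × Fin (N + 1)) ℂ) : Prop :=
  ∃ g : Fin k → ℕ, ∀ t ∈ G.support, ∀ b, ∑ i, t (b, i) = g b

/-- The return set `{n : (Φ₁ × ... × Φₖ)ⁿ(α) ∈ V}` for endomorphisms `Φ₁, ..., Φₖ` of `ℙᴺ`, the point
`α` of `(ℙᴺ)ᵏ` given by homogeneous coordinates, and the closed subset `V` of `(ℙᴺ)ᵏ` cut out by the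
forms of the set `V`. -/
def returnSet {k N : ℕ} (Φ : Fin k → Fin (N + 1) → MvPolynomial (Fin (N + 1)) ℂ)
    (α : Fin k → Fin (N + 1) → ℂ) (V : Set (MvPolynomial (Fin k × Fin (N + 1)) ℂ)) : Set ℕ :=
  {n | ∀ G ∈ V, eval (fun c => (endo (Φ c.1))^[n] (α c.1) c.2) G = 0}

/-- The coordinates of the point `α` lie in an extension `M` of degree at most `D` of a purely
transcendental extension `E` of the field `L`. -/
def DegreeLE {k N : ℕ} (L : Subfield ℂ) (D : ℕ) (α : Fin k → Fin (N + 1) → ℂ) : Prop :=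
  ∃ (r : ℕ) (t : Fin r → ℂ) (E : Subfield ℂ) (M : IntermediateField E ℂ),
    AlgebraicIndependent L t ∧ E = Subfield.closure ((L : Set ℂ) ∪ Set.range t) ∧
      FiniteDimensional E M ∧ Module.finrank E M ≤ D ∧ ∀ b i, α b i ∈ M

/-- **The dynamical Mordell-Lang conjecture holds completely, and uniformly, for a positive
proportion of the endomorphisms of projective space of any given degree `d ≥ 2` and in any
dimension `N`, over any number field, and for the products of these endomorphisms.**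
Let `e₁, ..., eₛ` be complex numbers, not all zero (for instance a basis of the integers of a number
field). The families `F = (Fⱼ)` of tuples of integral forms give the maps `Φ = ∑ⱼ eⱼ Fⱼ`. There is a
set `𝒢` of families which contains a proportion at least `c` of all families in every box around
`B * A` and every residue class modulo `m`, such that the families in `𝒢` define endomorphisms of
`ℙᴺ`, and for all `Φ₁, ..., Φₖ` given by families in `𝒢` (equal or not), all points `α` and all closed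
subsets `V` of `(ℙᴺ)ᵏ` over `ℂ` the return set is a finite union of arithmetic progressions. It is
the union of at most `C k D δ` points and progressions of difference `Q k D` if `α` has degree at
most `D` over a purely transcendental extension of `ℚ(e₁, ..., eₛ)` and `V` is cut out by forms of
degree at most `δ`; these numbers do not depend on the `Φᵢ`, on `α` and on `V`. -/
theorem result (N d m s : ℕ) (hd : 2 ≤ d) (hm : 1 ≤ m) (e : Fin s → ℂ) (he : e ≠ 0) :
    ∃ (c : ℝ) (C : ℕ → ℕ → ℕ → ℕ) (Q : ℕ → ℕ → ℕ)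
      (𝒢 : Set (Fin s → Fin (N + 1) → MvPolynomial (Fin (N + 1)) ℤ)), 0 < c ∧
      (∀ (A : Fin s → Fin (N + 1) → MvPolynomial (Fin (N + 1)) ℝ) (ε : ℝ)
        (F₀ : Fin s → Fin (N + 1) → MvPolynomial (Fin (N + 1)) ℤ),
        (∀ j i, (A j i).IsHomogeneous d) → 0 < ε → (∀ j i, (F₀ j i).IsHomogeneous d) →
        ∃ B₀ : ℕ, ∀ B : ℕ, B₀ ≤ B → (box N d m s A ε F₀ B).Finite ∧
          c * ((box N d m s A ε F₀ B).ncard : ℝ) ≤ ((box N d m s A ε F₀ B ∩ 𝒢).ncard : ℝ)) ∧
      (∀ F ∈ 𝒢, IsEndo (comb e F)) ∧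
      ∀ (k : ℕ) (F : Fin k → Fin s → Fin (N + 1) → MvPolynomial (Fin (N + 1)) ℤ),
        (∀ b, F b ∈ 𝒢) → ∀ α : Fin k → Fin (N + 1) → ℂ, (∀ b, α b ≠ 0) →
        ∀ V : Set (MvPolynomial (Fin k × Fin (N + 1)) ℂ), (∀ G ∈ V, IsMultihomogeneous G) →
          (∃ S : Finset (ℕ × ℕ), returnSet (fun b => comb e (F b)) α V =
            {n | ∃ q ∈ S, ∃ j, n = q.1 + q.2 * j}) ∧
          ∀ D δ : ℕ, DegreeLE (Subfield.closure (Set.range e)) D α →
            (∀ G ∈ V, G.totalDegree ≤ δ) →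
            ∃ S : Finset (ℕ × ℕ), S.card ≤ C k D δ ∧ (∀ q ∈ S, q.2 = 0 ∨ q.2 = Q k D) ∧
              returnSet (fun b => comb e (F b)) α V =
                {n | ∃ q ∈ S, ∃ j, n = q.1 + q.2 * j} := by
  obtain ⟨c, C, Q, 𝒢, hc, hbox, hE, hfull, hunif⟩ :=
    Pool.Agent.Helper26.FU.fu_main N d m s hd hm e he
  refine ⟨c, C, Q, 𝒢, hc, fun A ε F₀ hA hε hF₀ => hbox A ε F₀ hA hε hF₀, hE,
    fun k F hF α hα V hV => ⟨hfull k F hF α hα V hV, fun D δ hD hδ => ?_⟩⟩
  obtain ⟨r, t, E, M, ht, hEt, hMfin, hMD, hαM⟩ := hD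
  exact hunif k D δ F hF E ⟨r, t, ht, hEt⟩ M hMfin hMD α hα hαM V hV hδ

end Pool.Agent.Results.MP_295d38_ag.FullProportion
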